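import Mathlib

/-!
# A generalised Cantor set with look-back
-/

namespace Pool.Agent.H404Z.ULC

open Finset

variable {ι : Type}

/-- `ζ` avoids all the dangers of level below `m` -/
def Avoid (R : ℕ) (Y : ι → ℕ → ℕ → Set ℝ) (m : ℕ) (ζ : ℝ) : Prop :=
  ∀ i n m', n < m → m' ≤ n → ∀ y ∈ Y i n m', 1 / (R : ℝ) ^ (n + 1) ≤ |ζ - y|

/-- the interval of level `n` and index `a` -/
def Iv (R n a : ℕ) : Set ℝ := Set.Icc ((a : ℝ) / (R : ℝ) ^ n) (((a : ℝ) + 1) / (R : ℝ) ^ n)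

/-- killed intervals -/
def Killed (R : ℕ) (Y : ι → ℕ → ℕ → Set ℝ) (i : ι) (n m a : ℕ) : Prop :=
  ∃ y ∈ Y i n m, ∃ ζ ∈ Iv R (n + 1) a, |ζ - y| < 1 / (R : ℝ) ^ (n + 1)

open Classical in
/-- survivors -/
noncomputable def Sv (R : ℕ) (Y : ι → ℕ → ℕ → Set ℝ) : ℕ → Finset ℕ
  | 0 => {0}
  | n + 1 => (range (R ^ (n + 1))).filter fun a =>
      a / R ∈ Sv R Y n ∧ ∀ i m, m ≤ n → ¬ Killed R Y i n m a

lemma Iv_sub {R : ℕ} (hR : 0 < R) (n k a : ℕ) : Iv R (n + k) a ⊆ Iv R n (a / R ^ k) := by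
  intro ζ hζ
  obtain ⟨h1, h2⟩ := hζ
  have hp : (0 : ℝ) < (R : ℝ) ^ k := by positivity
  have hn : (0 : ℝ) < (R : ℝ) ^ n := by positivity
  have e1 : (a / R ^ k) * R ^ k ≤ a := Nat.div_mul_le_self _ _
  have e2 : a + 1 ≤ (a / R ^ k + 1) * R ^ k := by
    have := Nat.lt_div_mul_add (a := a) (b := R ^ k) (by positivity)
    nlinarith
  have e1' : ((a / R ^ k : ℕ) : ℝ) * (R : ℝ) ^ k ≤ a := by exact_mod_cast e1
  have e2' : (a : ℝ) + 1 ≤ (((a / R ^ k : ℕ) : ℝ) + 1) * (R : ℝ) ^ k := by exact_mod_cast e2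
  constructor
  · refine le_trans ?_ h1
    rw [pow_add, div_le_div_iff₀ hn (by positivity)]
    nlinarith
  · refine h2.trans ?_
    rw [pow_add, div_le_div_iff₀ (by positivity) hn]
    nlinarith

lemma Sv_lt {R : ℕ} (Y : ι → ℕ → ℕ → Set ℝ) (n a : ℕ) (h : a ∈ Sv R Y n) : a < R ^ n := by
  cases n with
  | zero => simp [Sv] at h; simp [h]
  | succ n => simp only [Sv, mem_filter, mem_range] at h; exact h.1

lemma Sv_anc {R : ℕ} (Y : ι → ℕ → ℕ → Set ℝ) (m k a : ℕ) (h : a ∈ Sv R Y (m + k)) :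
    a / R ^ k ∈ Sv R Y m := by
  induction k generalizing a with
  | zero => simpa using h
  | succ k ih =>
    rw [← add_assoc] at h
    simp only [Sv, mem_filter] at h
    have := ih _ h.2.1
    rwa [Nat.div_div_eq_div_mul, ← pow_succ'] at this

lemma Sv_avoid {R : ℕ} (hR : 0 < R) (Y : ι → ℕ → ℕ → Set ℝ) (n a : ℕ) (h : a ∈ Sv R Y n)
    (ζ : ℝ) (hζ : ζ ∈ Iv R n a) : Avoid R Y n ζ := by
  induction n generalizing a with
  | zero => intro i n m' hn; omega
  | succ n ih =>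
    simp only [Sv, mem_filter] at h
    intro i n' m' hn hm y hy
    rcases (Nat.lt_succ_iff.1 hn).lt_or_eq with h' | rfl
    · have := Iv_sub hR n 1 a hζ
      rw [pow_one] at this
      exact ih _ h.2.1 this i n' m' h' hm y hy
    · by_contra hc
      exact h.2.2 i m' hm ⟨y, hy, ζ, hζ, not_le.1 hc⟩

lemma left_mem_Iv {R : ℕ} (hR : 0 < R) (n a : ℕ) : (a : ℝ) / (R : ℝ) ^ n ∈ Iv R n a :=
  ⟨le_rfl, by gcongr; linarith⟩

open Classical in
lemma card_killed {R : ℕ} (hR : 2 ≤ R) (Y : ι → ℕ → ℕ → Set ℝ)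
    (H : ∀ i n m ζ, m ≤ n → Avoid R Y m ζ → ∀ y ∈ Y i n m, ∀ y' ∈ Y i n m,
      |ζ - y| ≤ 2 / (R : ℝ) ^ m → |ζ - y'| ≤ 2 / (R : ℝ) ^ m → y = y')
    (i : ι) (n m b : ℕ) (hm : m ≤ n) (hb : b ∈ Sv R Y m) :
    ((range (R ^ (n + 1))).filter fun a => a / R ^ (n + 1 - m) = b ∧ Killed R Y i n m a).card
      ≤ 3 := by
  have hR0 : 0 < R := by omega
  have hp : (0 : ℝ) < (R : ℝ) ^ (n + 1) := by positivity
  have hpm : (0 : ℝ) < (R : ℝ) ^ m := by positivity
  have hle : 1 / (R : ℝ) ^ (n + 1) ≤ 1 / (R : ℝ) ^ m := by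
    apply one_div_le_one_div_of_le hpm
    exact pow_le_pow_right₀ (by exact_mod_cast hR0) (by omega)
  set K := (range (R ^ (n + 1))).filter fun a => a / R ^ (n + 1 - m) = b ∧ Killed R Y i n m a
    with hK
  have near : ∀ a ∈ K, ∀ y ζ, ζ ∈ Iv R (n + 1) a → |ζ - y| < 1 / (R : ℝ) ^ (n + 1) →
      |(b : ℝ) / (R : ℝ) ^ m - y| ≤ 2 / (R : ℝ) ^ m := by
    intro a ha y ζ hζ hy
    simp only [hK, mem_filter] at ha
    have e : n + 1 = m + (n + 1 - m) := by omega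
    have h1 : ζ ∈ Iv R m b := by
      rw [← ha.2.1]
      apply Iv_sub hR0 m (n + 1 - m) a
      rwa [← e]
    obtain ⟨h2, h3⟩ := h1
    rw [add_div] at h3
    have e2 : 2 / (R : ℝ) ^ m = 1 / (R : ℝ) ^ m + 1 / (R : ℝ) ^ m := by ring
    rw [abs_lt] at hy
    rw [abs_le, e2]
    constructor <;> linarith [hy.1, hy.2]
  rcases K.eq_empty_or_nonempty with h0 | ⟨a0, ha0⟩
  · rw [h0]; simp
  have ha0' := ha0
  simp only [hK, mem_filter] at ha0'
  obtain ⟨y0, hy0, ζ0, hζ0, hd0⟩ := ha0'.2.2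
  have hav := Sv_avoid hR0 Y m b hb _ (left_mem_Iv hR0 m b)
  set t : ℝ := y0 * (R : ℝ) ^ (n + 1) with ht
  have hmap : ∀ a ∈ K, (a : ℤ) ∈ Finset.Icc (⌊t⌋ - 1) (⌊t⌋ + 1) := by
    intro a ha
    have ha' := ha
    simp only [hK, mem_filter] at ha'
    obtain ⟨y, hy, ζ, hζ, hd⟩ := ha'.2.2
    have hyy : y = y0 := H i n m _ hm hav y hy y0 hy0 (near a ha y ζ hζ hd)
      (near a0 ha0 y0 ζ0 hζ0 hd0)
    subst hyy
    obtain ⟨h2, h3⟩ := hζ
    rw [div_le_iff₀ hp] at h2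
    rw [le_div_iff₀ hp] at h3
    rw [abs_lt] at hd
    obtain ⟨d1, d2⟩ := hd
    have d1' : -1 < (ζ - y) * (R : ℝ) ^ (n + 1) := by
      have := mul_lt_mul_of_pos_right d1 hp
      rwa [neg_mul, one_div_mul_cancel hp.ne'] at this
    have d2' : (ζ - y) * (R : ℝ) ^ (n + 1) < 1 := by
      have := mul_lt_mul_of_pos_right d2 hp
      rwa [one_div_mul_cancel hp.ne'] at this
    have f1 := Int.floor_le t
    have f2 := Int.lt_floor_add_one t
    rw [Finset.mem_Icc]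
    constructor
    · have : ((⌊t⌋ : ℤ) : ℝ) - 2 < ((a : ℤ) : ℝ) := by push_cast; nlinarith
      have : ⌊t⌋ - 2 < (a : ℤ) := by exact_mod_cast this
      omega
    · have : ((a : ℤ) : ℝ) < ((⌊t⌋ : ℤ) : ℝ) + 2 := by push_cast; nlinarith
      have : (a : ℤ) < ⌊t⌋ + 2 := by exact_mod_cast this
      omega
  have := Finset.card_le_card_of_injOn (fun a : ℕ => (a : ℤ)) (s := K)
    (t := Finset.Icc (⌊t⌋ - 1) (⌊t⌋ + 1)) hmap (fun a _ b _ h => Nat.cast_injective (R := ℤ) h)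
  rw [Int.card_Icc] at this
  have e : (⌊t⌋ + 1 + 1 - (⌊t⌋ - 1)).toNat = 3 := by
    have : ⌊t⌋ + 1 + 1 - (⌊t⌋ - 1) = 3 := by ring
    rw [this]; rfl
  omega

lemma card_step [Fintype ι] {R : ℕ} (hR : 2 ≤ R) (Y : ι → ℕ → ℕ → Set ℝ)
    (H : ∀ i n m ζ, m ≤ n → Avoid R Y m ζ → ∀ y ∈ Y i n m, ∀ y' ∈ Y i n m,
      |ζ - y| ≤ 2 / (R : ℝ) ^ m → |ζ - y'| ≤ 2 / (R : ℝ) ^ m → y = y') (n : ℕ) :
    (Sv R Y n).card * R ≤ (Sv R Y (n + 1)).card +
      Fintype.card ι * (3 * ∑ m ∈ range (n + 1), (Sv R Y m).card) := by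
  classical
  have hR0 : 0 < R := by omega
  let K : ι → ℕ → ℕ → Finset ℕ := fun i m b =>
    (range (R ^ (n + 1))).filter fun a => a / R ^ (n + 1 - m) = b ∧ Killed R Y i n m a
  let U : Finset ℕ := univ.biUnion fun i => (range (n + 1)).biUnion fun m =>
    (Sv R Y m).biUnion fun b => K i m b
  have hU : U.card ≤ Fintype.card ι * (3 * ∑ m ∈ range (n + 1), (Sv R Y m).card) := by
    refine card_biUnion_le.trans ?_
    rw [← Finset.card_univ, ← smul_eq_mul, ← sum_const]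
    refine sum_le_sum fun i _ => card_biUnion_le.trans ?_
    rw [mul_sum]
    refine sum_le_sum fun m hm => card_biUnion_le.trans ?_
    rw [mul_comm, ← smul_eq_mul, ← sum_const]
    refine sum_le_sum fun b hb => ?_
    exact card_killed hR Y H i n m b (by simpa [Nat.lt_succ_iff] using hm) hb
  have hinj : (Sv R Y n ×ˢ range R).card ≤ (Sv R Y (n + 1) ∪ U).card := by
    refine card_le_card_of_injOn (fun z : ℕ × ℕ => z.1 * R + z.2) ?_ ?_
    · rintro ⟨a, j⟩ hz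
      simp only [coe_product, Set.mem_prod, mem_coe, mem_range] at hz
      obtain ⟨ha, hj⟩ := hz
      have hlt := Sv_lt Y n a ha
      have hlt' : a * R + j < R ^ (n + 1) := by rw [pow_succ]; nlinarith
      have hdiv : (a * R + j) / R = a := by
        rw [mul_comm, Nat.mul_add_div hR0, Nat.div_eq_of_lt hj, add_zero]
      simp only [coe_union, Set.mem_union, mem_coe]
      by_cases hk : ∀ i m, m ≤ n → ¬ Killed R Y i n m (a * R + j)
      · left
        simp only [Sv, mem_filter, mem_range]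
        exact ⟨hlt', by rwa [hdiv], hk⟩
      · right
        push Not at hk
        obtain ⟨i, m, hm, hk⟩ := hk
        simp only [U, K, mem_biUnion, mem_univ, true_and, mem_range, mem_filter]
        refine ⟨i, m, by omega, (a * R + j) / R ^ (n + 1 - m), ?_, hlt', rfl, hk⟩
        have e : n + 1 - m = (n - m) + 1 := by omega
        rw [e, pow_succ', ← Nat.div_div_eq_div_mul, hdiv]
        apply Sv_anc
        rwa [Nat.add_sub_cancel' hm]
    · rintro ⟨a, j⟩ hz ⟨a', j'⟩ hz' h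
      simp only [coe_product, Set.mem_prod, mem_coe, mem_range] at hz hz' h
      have h1 : (a * R + j) / R = a := by
        rw [mul_comm, Nat.mul_add_div hR0, Nat.div_eq_of_lt hz.2, add_zero]
      have h2 : (a' * R + j') / R = a' := by
        rw [mul_comm, Nat.mul_add_div hR0, Nat.div_eq_of_lt hz'.2, add_zero]
      have h3 : a = a' := by rw [← h1, ← h2, h]
      subst h3
      have : j = j' := by omega
      rw [this]
  rw [card_product, card_range] at hinj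
  have := card_union_le (Sv R Y (n + 1)) U
  omega

theorem cantor [Fintype ι] {R : ℕ} (hR : 6 * Fintype.card ι + 2 ≤ R) (Y : ι → ℕ → ℕ → Set ℝ)
    (H : ∀ i n m ζ, m ≤ n → Avoid R Y m ζ → ∀ y ∈ Y i n m, ∀ y' ∈ Y i n m,
      |ζ - y| ≤ 2 / (R : ℝ) ^ m → |ζ - y'| ≤ 2 / (R : ℝ) ^ m → y = y') :
    ∃ ζ : ℝ, ∀ m, Avoid R Y m ζ := by
  have hR2 : 2 ≤ R := by omega
  have hR0 : 0 < R := by omega
  have key : ∀ n, 0 < (Sv R Y n).card ∧
      ∑ m ∈ range (n + 1), (Sv R Y m).card ≤ 2 * (Sv R Y n).card := by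
    intro n
    induction n with
    | zero => simp [Sv]
    | succ n ih =>
      have h1 := card_step hR2 Y H n
      have h2 : 2 * (Sv R Y n).card ≤ (Sv R Y (n + 1)).card := by
        have h3 : Fintype.card ι * (3 * ∑ m ∈ range (n + 1), (Sv R Y m).card) ≤
            Fintype.card ι * (3 * (2 * (Sv R Y n).card)) := by gcongr; exact ih.2
        have h4 : (Sv R Y n).card * (6 * Fintype.card ι + 2) ≤ (Sv R Y n).card * R := by gcongr
        nlinarith
      rw [sum_range_succ _ (n + 1)]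
      omega
  let A : ℕ → Set ℝ := fun m => Set.Icc 0 1 ∩ {ζ | Avoid R Y m ζ}
  have hcl : ∀ m, IsClosed (A m) := by
    intro m
    refine isClosed_Icc.inter ?_
    simp only [Avoid, Set.ofPred_forall]
    refine isClosed_iInter fun i => isClosed_iInter fun n => isClosed_iInter fun m' =>
      isClosed_iInter fun _ => isClosed_iInter fun _ => isClosed_iInter fun y =>
      isClosed_iInter fun _ => ?_
    exact isClosed_le continuous_const (by fun_prop)
  have hne : ∀ m, (A m).Nonempty := by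
    intro m
    obtain ⟨a, ha⟩ := card_pos.1 (key m).1
    refine ⟨(a : ℝ) / (R : ℝ) ^ m, ⟨by positivity, ?_⟩,
      Sv_avoid hR0 Y m a ha _ (left_mem_Iv hR0 m a)⟩
    rw [div_le_one (by positivity)]
    exact_mod_cast (Sv_lt Y m a ha).le
  obtain ⟨ζ, hζ⟩ := IsCompact.nonempty_iInter_of_sequence_nonempty_isCompact_isClosed A
    (fun m ζ hζ => ⟨hζ.1, fun i n m' hn => hζ.2 i n m' (by omega)⟩) hne
    (isCompact_Icc.of_isClosed_subset (hcl 0) Set.inter_subset_left) hcl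
  exact ⟨ζ, fun m => (Set.mem_iInter.1 hζ m).2⟩

end Pool.Agent.H404Z.ULC
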