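import Pool.Agent.H404Z.ULC.Cantor

/-!
# The three families of dangers
-/

namespace Pool.Agent.H404Z.ULC

/-- powers of the base -/
noncomputable def T (R : ℕ) (z : ℤ) : ℝ := (R : ℝ) ^ z

section Tlem
variable {R : ℕ} (hR : 20 ≤ R)
include hR

lemma one_lt_R : (1 : ℝ) < R := by exact_mod_cast (by omega : 1 < R)

lemma T_pos (z : ℤ) : 0 < T R z := zpow_pos (by linarith [one_lt_R hR]) z

lemma T_add (a b : ℤ) : T R (a + b) = T R a * T R b :=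
  zpow_add₀ (by linarith [one_lt_R hR]) a b

lemma T_mul {a b c : ℤ} (h : a + b = c) : T R a * T R b = T R c := by rw [← h, T_add hR]

lemma T_le {a b : ℤ} (h : a ≤ b) : T R a ≤ T R b := zpow_le_zpow_right₀ (one_lt_R hR).le h

lemma T_lt_iff {a b : ℤ} : T R a < T R b ↔ a < b := zpow_lt_zpow_iff_right₀ (one_lt_R hR)

lemma T_le_iff {a b : ℤ} : T R a ≤ T R b ↔ a ≤ b := zpow_le_zpow_iff_right₀ (one_lt_R hR)

omit hR in
lemma T_zero : T R 0 = 1 := zpow_zero _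

lemma T_gap {a b : ℤ} (h : a < b) : 16 * T R a < T R b := by
  have h1 : T R (a + 1) ≤ T R b := T_le hR (by omega)
  rw [T_add hR] at h1
  have h2 : T R 1 = R := zpow_one _
  have h3 : (20 : ℝ) ≤ R := by exact_mod_cast hR
  have := T_pos hR a
  nlinarith

lemma T_scale {x : ℝ} (hx : 0 < x) : ∃ j : ℤ, T R j ≤ x ∧ x < T R (j + 1) :=
  exists_mem_Ico_zpow hx (one_lt_R hR)

omit hR in
lemma T_inv (n : ℕ) : 1 / (R : ℝ) ^ (n + 1) = T R (-(n : ℤ) - 1) := by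
  unfold T
  rw [one_div, ← zpow_natCast, ← zpow_neg]
  congr 1
  push_cast; ring

omit hR in
lemma T_two (m : ℕ) : 2 / (R : ℝ) ^ m = 2 * T R (-(m : ℤ)) := by
  unfold T
  rw [zpow_neg, zpow_natCast, div_eq_mul_inv]

end Tlem

/-- `N` is the stage active at level `n` -/
def St (N n : ℕ) : Prop := (∃ s : ℕ, N = 12 * 5 ^ s) ∧ 2 * N ≤ 3 * n ∧ n ≤ 3 * N

lemma St.unique {N N' n : ℕ} (h : St N n) (h' : St N' n) : N = N' := by
  obtain ⟨⟨s, rfl⟩, h1, h2⟩ := h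
  obtain ⟨⟨s', rfl⟩, h1', h2'⟩ := h'
  have key : ∀ a b : ℕ, a < b → 5 * 5 ^ a ≤ 5 ^ b := fun a b hab => by
    rw [← pow_succ']; exact Nat.pow_le_pow_right (by norm_num) hab
  have p1 : 0 < 5 ^ s := by positivity
  have p2 : 0 < 5 ^ s' := by positivity
  rcases lt_trichotomy s s' with h | h | h
  · have := key _ _ h; omega
  · rw [h]
  · have := key _ _ h; omega

/-- rational dangers for bad approximability -/
def Y0 (R : ℕ) (n m : ℕ) : Set ℝ :=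
  {y | m = n ∧ ∃ q r : ℤ, 1 ≤ q ∧ T R (n + 1) ≤ T R 3 * (q : ℝ) ^ 2 ∧
    T R 3 * (q : ℝ) ^ 2 < T R (n + 2) ∧ y = r / q}

/-- primal dangers -/
def Y1 (R : ℕ) (ξ : ℝ) (n m : ℕ) : Set ℝ :=
  {y | ∃ N : ℕ, St N n ∧ ∃ p q r : ℤ, 1 ≤ q ∧ q * T R (2 * ((n : ℤ) - m)) ≤ T R N ∧
    T R N < q * T R (2 * ((n : ℤ) - m) + 2) ∧ |q * ξ - p| ≤ 1 ∧
    T R (n + 1) ≤ T R (12 + N) * (q * |q * ξ - p|) ∧
    T R (12 + N) * (q * |q * ξ - p|) < T R (n + 2) ∧ y = r / q}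

/-- dual dangers -/
def Y2 (R : ℕ) (ξ : ℝ) (n m : ℕ) : Set ℝ :=
  {y | ∃ N : ℕ, St N n ∧ ∃ A B C : ℤ, A ≠ 0 ∧ B ≠ 0 ∧
    |(A : ℝ)| * |(B : ℝ)| * T R (6 * ((n : ℤ) - m) + 7) ≤ T R N ∧
    T R N < |(A : ℝ)| * |(B : ℝ)| * T R (6 * ((n : ℤ) - m) + 13) ∧
    T R (n + 2 * ((n : ℤ) - m) - 5) ≤ T R N * |(B : ℝ)| ∧
    T R N * |(B : ℝ)| < T R (n + 2 * ((n : ℤ) - m) - 4) ∧ y = -(A * ξ + C) / B}

/-- all dangers -/
def YY (R : ℕ) (ξ : ℝ) : Fin 3 → ℕ → ℕ → Set ℝ := ![Y0 R, Y1 R ξ, Y2 R ξ]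

lemma one_le_abs_cast {A : ℤ} (h : A ≠ 0) : (1 : ℝ) ≤ |(A : ℝ)| := by
  have := Int.one_le_abs h
  exact_mod_cast this

section cover
variable {R : ℕ} (hR : 20 ≤ R) {ξ : ℝ}
  (hξ : ∀ q p : ℤ, 1 ≤ q → T R (-1) ≤ q * |q * ξ - p|)
include hR

lemma cover0 {ζ : ℝ} (h : ∀ M, Avoid R (YY R ξ) M ζ) (q r : ℤ) (hq : 1 ≤ q) :
    T R (-3) ≤ q * |q * ζ - r| := by
  have hq' : (1 : ℝ) ≤ q := by exact_mod_cast hq
  have p3 := T_pos hR 3
  obtain ⟨j, h1, h2⟩ := T_scale hR (x := T R 3 * (q : ℝ) ^ 2) (by positivity)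
  have hj : 3 < j + 1 := by
    rw [← T_lt_iff hR]
    refine lt_of_le_of_lt ?_ h2
    have : (1 : ℝ) ≤ (q : ℝ) ^ 2 := by nlinarith
    nlinarith
  obtain ⟨n, rfl⟩ : ∃ n : ℕ, j = n + 1 := ⟨(j - 1).toNat, by omega⟩
  have := h (n + 1) 0 n n (by omega) le_rfl (r / q)
    ⟨rfl, q, r, hq, h1, by rwa [add_assoc] at h2, rfl⟩
  rw [T_inv] at this
  have e : |q * ζ - r| = q * |ζ - r / q| := by
    rw [← abs_of_pos (a := (q : ℝ)) (by linarith), ← abs_mul, abs_of_pos (a := (q : ℝ)) (by linarith)]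
    congr 1
    field_simp
  rw [e]
  have e1 : T R (-3) = T R (n + 1) * (T R (-3) * T R (-(n : ℤ) - 1)) := by
    rw [T_mul hR rfl, T_mul hR rfl]; congr 1; ring
  have e2 : T R 3 * T R (-3) = 1 := by rw [T_mul hR rfl]; exact T_zero
  have pm3 := T_pos hR (-3)
  have pn := T_pos hR (-(n : ℤ) - 1)
  calc T R (-3) = T R (n + 1) * (T R (-3) * T R (-(n : ℤ) - 1)) := e1
    _ ≤ (T R 3 * (q : ℝ) ^ 2) * (T R (-3) * |ζ - r / q|) := by gcongr
    _ = (T R 3 * T R (-3)) * (q * (q * |ζ - r / q|)) := by ring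
    _ = _ := by rw [e2, one_mul]

include hξ

lemma cover1 {ζ : ℝ} {M : ℕ} (h : Avoid R (YY R ξ) M ζ) {N s : ℕ} (hN : N = 12 * 5 ^ s)
    (p q r : ℤ) (hq : 1 ≤ q) (hqN : (q : ℝ) ≤ T R N) (hx : |q * ξ - p| ≤ 1)
    (hM : T R (12 + N) * (q * |q * ξ - p|) < T R (M + 1)) :
    T R (-12 - N) ≤ |q * ξ - p| * |q * ζ - r| := by
  have hq' : (1 : ℝ) ≤ q := by exact_mod_cast hq
  have hN12 : 12 ≤ N := by have : 0 < 5 ^ s := by positivity
                           omega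
  have hX := hξ q p hq
  have pm1 := T_pos hR (-1)
  have p12 := T_pos hR (12 + N)
  set X : ℝ := q * |q * ξ - p| with hXdef
  obtain ⟨j, h1, h2⟩ := T_scale hR (x := T R (12 + N) * X) (by nlinarith)
  have hj : 11 + (N : ℤ) < j + 1 := by
    rw [← T_lt_iff hR]
    refine lt_of_le_of_lt ?_ h2
    rw [← T_mul hR (a := 12 + N) (b := -1) (by ring)]
    gcongr
  have hj2 : j ≤ 12 + N + N := by
    rw [← T_le_iff hR]
    refine h1.trans ?_
    rw [← T_mul hR (a := 12 + N) (b := N) rfl]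
    gcongr
    calc X ≤ q * 1 := by rw [hXdef]; gcongr
      _ ≤ _ := by linarith
  have hj3 : j < M + 1 := by
    rw [← T_lt_iff hR]; exact h1.trans_lt hM
  obtain ⟨n, rfl⟩ : ∃ n : ℕ, j = n + 1 := ⟨(j - 1).toNat, by omega⟩
  have pN := T_pos hR N
  obtain ⟨l, l1, l2⟩ := T_scale hR (x := T R N / q) (by positivity)
  rw [le_div_iff₀ (by linarith)] at l1
  rw [div_lt_iff₀ (by linarith)] at l2
  have hl0 : 0 < l + 1 := by
    rw [← T_lt_iff hR, T_zero]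
    by_contra hc
    push Not at hc
    nlinarith
  have hlN : l ≤ N := by
    rw [← T_le_iff hR]
    have := T_pos hR l
    nlinarith
  obtain ⟨m, hm, hk⟩ : ∃ m : ℕ, m ≤ n ∧ (n : ℤ) - m = l / 2 :=
    ⟨(n - l / 2).toNat, by omega, by omega⟩
  have := h 1 n m (by omega) hm (r / q) ⟨N, ⟨⟨s, hN⟩, by omega, by omega⟩, p, q, r, hq, by
    rw [hk]
    have := T_le hR (a := 2 * (l / 2)) (b := l) (by omega)
    nlinarith, by
    rw [hk]
    have := T_le hR (a := l + 1) (b := 2 * (l / 2) + 2) (by omega)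
    nlinarith, hx, h1, by rwa [add_assoc] at h2, rfl⟩
  rw [T_inv] at this
  have e : |q * ζ - r| = q * |ζ - r / q| := by
    rw [← abs_of_pos (a := (q : ℝ)) (by linarith), ← abs_mul, abs_of_pos (a := (q : ℝ)) (by linarith)]
    congr 1
    field_simp
  rw [e]
  have e1 : T R (-12 - N) = T R (n + 1) * (T R (-12 - N) * T R (-(n : ℤ) - 1)) := by
    rw [T_mul hR rfl, T_mul hR rfl]; congr 1; ring
  have e2 : T R (12 + N) * T R (-12 - N) = 1 := by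
    rw [T_mul hR (c := 0) (by ring)]; exact T_zero
  have pm3 := T_pos hR (-12 - N)
  have pn := T_pos hR (-(n : ℤ) - 1)
  calc T R (-12 - N) = T R (n + 1) * (T R (-12 - N) * T R (-(n : ℤ) - 1)) := e1
    _ ≤ (T R (12 + N) * X) * (T R (-12 - N) * |ζ - r / q|) := by gcongr
    _ = (T R (12 + N) * T R (-12 - N)) * (|q * ξ - p| * (q * |ζ - r / q|)) := by
      rw [hXdef]; ring
    _ = _ := by rw [e2, one_mul]

omit hξ in
lemma cover2 {ζ : ℝ} {M : ℕ} (h : Avoid R (YY R ξ) M ζ) {N s : ℕ} (hN : N = 12 * 5 ^ s)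
    (A B C : ℤ) (hA : A ≠ 0) (hB : B ≠ 0) (k : ℤ) (hk0 : 0 ≤ k)
    (c1 : |(A : ℝ)| * |(B : ℝ)| * T R (6 * k + 7) ≤ T R N)
    (c2 : T R N < |(A : ℝ)| * |(B : ℝ)| * T R (6 * k + 13))
    (hM : T R N * |(B : ℝ)| < T R (M + 2 * k - 5)) :
    T R (2 * k - 6 - N) ≤ |A * ξ + B * ζ + C| := by
  have hA' := one_le_abs_cast hA
  have hB' := one_le_abs_cast hB
  have hN12 : 12 ≤ N := by have : 0 < 5 ^ s := by positivity
                           omega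
  have pN := T_pos hR N
  have p7 := T_pos hR (6 * k + 7)
  have hAB : 1 ≤ |(A : ℝ)| * |(B : ℝ)| := by nlinarith
  have hkN : 6 * k + 7 ≤ N := by
    rw [← T_le_iff hR]; nlinarith
  have hBN : |(B : ℝ)| ≤ T R N := by
    have h1 : 1 ≤ T R (6 * k + 7) := by rw [← T_zero (R := R)]; exact T_le hR (by omega)
    have h2 : |(B : ℝ)| ≤ |(A : ℝ)| * |(B : ℝ)| := by nlinarith
    nlinarith
  obtain ⟨j, h1, h2⟩ := T_scale hR (x := T R N * |(B : ℝ)|) (by positivity)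
  have hj : (N : ℤ) < j + 1 := by
    rw [← T_lt_iff hR]; nlinarith
  have hj2 : j ≤ N + N := by
    rw [← T_le_iff hR, T_add hR]; nlinarith
  have hj3 : j < M + 2 * k - 5 := by
    rw [← T_lt_iff hR]; exact h1.trans_lt hM
  obtain ⟨n, hn⟩ : ∃ n : ℕ, j = n + 2 * k - 5 := ⟨(j - 2 * k + 5).toNat, by omega⟩
  obtain ⟨m, hm, hk⟩ : ∃ m : ℕ, m ≤ n ∧ (n : ℤ) - m = k := ⟨(n - k).toNat, by omega, by omega⟩
  have := h 2 n m (by omega) hm (-(A * ξ + C) / B) ⟨N, ⟨⟨s, hN⟩, by omega, by omega⟩, A, B, C,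
    hA, hB, by rw [hk]; exact c1, by rw [hk]; exact c2, by rw [hk, ← hn]; exact h1, by
    rw [hk]
    have : (n : ℤ) + 2 * k - 4 = j + 1 := by omega
    rw [this]; exact h2, rfl⟩
  rw [T_inv] at this
  have hB0 : (B : ℝ) ≠ 0 := by exact_mod_cast hB
  have e : |A * ξ + B * ζ + C| = |(B : ℝ)| * |ζ - -(A * ξ + C) / B| := by
    rw [← abs_mul]
    congr 1
    field_simp
    ring
  rw [e]
  have e1 : T R (2 * k - 6 - N) = T R j * (T R (-N) * T R (-(n : ℤ) - 1)) := by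
    rw [T_mul hR rfl, T_mul hR rfl]; congr 1; omega
  have e2 : T R N * T R (-N) = 1 := by
    rw [T_mul hR (c := 0) (by ring)]; exact T_zero
  have pm3 := T_pos hR (-N)
  have pn := T_pos hR (-(n : ℤ) - 1)
  calc T R (2 * k - 6 - N) = T R j * (T R (-N) * T R (-(n : ℤ) - 1)) := e1
    _ ≤ (T R N * |(B : ℝ)|) * (T R (-N) * |ζ - -(A * ξ + C) / B|) := by gcongr
    _ = (T R N * T R (-N)) * (|(B : ℝ)| * |ζ - -(A * ξ + C) / B|) := by ring
    _ = _ := by rw [e2, one_mul]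

end cover

end Pool.Agent.H404Z.ULC
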