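import Mathlib

/-!
# Uniform Littlewood constant: definitions
-/

open Filter

namespace Pool.Agent.H404Z.ULC

/-- distance from `x` to the nearest integer -/
noncomputable def nrm (x : ℝ) : ℝ := |x - round x|

/-- `m_Q(ξ, ζ)`: the minimum of `‖q ξ‖ ‖q ζ‖` over the integers `1 ≤ q ≤ Q` -/
noncomputable def mQ (ξ ζ : ℝ) (Q : ℕ) : ℝ :=
  sInf ((fun q : ℕ => nrm (q * ξ) * nrm (q * ζ)) '' Set.Icc 1 Q)

/-- `D(ξ, ζ)`: the upper limit of `Q m_Q(ξ, ζ)`, taken in the extended reals -/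
noncomputable def D (ξ ζ : ℝ) : EReal :=
  limsup (fun Q : ℕ => (((Q : ℝ) * mQ ξ ζ Q : ℝ) : EReal)) atTop

/-- badly approximable: `inf_{q ≥ 1} q ‖q ξ‖ > 0` -/
def Bad (ξ : ℝ) : Prop := ∃ c : ℝ, 0 < c ∧ ∀ q : ℕ, 1 ≤ q → c ≤ q * nrm (q * ξ)

end Pool.Agent.H404Z.ULC
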