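import Pool.Agent.H404Z.ULC.Dangers

/-!
# At most one danger of each class near a surviving point
-/

namespace Pool.Agent.H404Z.ULC

lemma abs_sub_center (q r : ℤ) (hq : 1 ≤ q) (ζ : ℝ) : |q * ζ - r| = q * |ζ - r / q| := by
  have hq' : (1 : ℝ) ≤ q := by exact_mod_cast hq
  rw [← abs_of_pos (a := (q : ℝ)) (by linarith), ← abs_mul, abs_of_pos (a := (q : ℝ)) (by linarith)]
  congr 1
  field_simp

lemma abs_line (A B C : ℤ) (hB : B ≠ 0) (ξ ζ : ℝ) :
    |A * ξ + B * ζ + C| = |(B : ℝ)| * |ζ - -(A * ξ + C) / B| := by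
  have hB0 : (B : ℝ) ≠ 0 := by exact_mod_cast hB
  rw [← abs_mul]
  congr 1
  field_simp
  ring

lemma abs_det_le (a b c d : ℝ) : |a * b - c * d| ≤ |a| * |b| + |c| * |d| := by
  rw [← abs_mul, ← abs_mul]; exact abs_sub _ _

lemma cross_ne {q1 r1 q2 r2 : ℤ} (h1 : 1 ≤ q1) (h2 : 1 ≤ q2)
    (h : (r1 : ℝ) / q1 ≠ (r2 : ℝ) / q2) : r1 * q2 - q1 * r2 ≠ 0 := by
  intro hc
  apply h
  have hq1 : (0 : ℝ) < q1 := by exact_mod_cast (by omega : 0 < q1)
  have hq2 : (0 : ℝ) < q2 := by exact_mod_cast (by omega : 0 < q2)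
  rw [div_eq_div_iff hq1.ne' hq2.ne']
  have : ((r1 * q2 - q1 * r2 : ℤ) : ℝ) = 0 := by exact_mod_cast hc
  push_cast at this
  linarith

variable {R : ℕ} (hR : 20 ≤ R) {ξ : ℝ}
  (hξ : ∀ q p : ℤ, 1 ≤ q → T R (-1) ≤ q * |q * ξ - p|)
include hR

lemma le_T_of_mul {x : ℝ} {a b c : ℤ} (h : x * T R a ≤ T R b) (e : c + a = b) : x ≤ T R c := by
  rw [← T_mul hR e] at h
  exact le_of_mul_le_mul_right h (T_pos hR a)

lemma lt_T_of_mul {x : ℝ} {a b c : ℤ} (h : x * T R a < T R b) (e : c + a = b) : x < T R c := by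
  rw [← T_mul hR e] at h
  exact lt_of_mul_lt_mul_right h (T_pos hR a).le

lemma T_le_of_mul {x : ℝ} {a b c : ℤ} (h : T R b ≤ x * T R a) (e : c + a = b) : T R c ≤ x := by
  rw [← T_mul hR e] at h
  exact le_of_mul_le_mul_right h (T_pos hR a)

lemma T_lt_of_mul {x : ℝ} {a b c : ℤ} (h : T R b < x * T R a) (e : c + a = b) : T R c < x := by
  rw [← T_mul hR e] at h
  exact lt_of_mul_lt_mul_right h (T_pos hR a).le

lemma lt_T_of_mul' {x : ℝ} {a b c : ℤ} (h : T R a * x < T R b) (e : c + a = b) : x < T R c :=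
  lt_T_of_mul hR ((mul_comm _ _).trans_lt h) e

lemma T_le_of_mul' {x : ℝ} {a b c : ℤ} (h : T R b ≤ T R a * x) (e : c + a = b) : T R c ≤ x :=
  T_le_of_mul hR (h.trans_eq (mul_comm _ _)) e

lemma mul_le_T {x y u v : ℝ} {a b c : ℤ} (hx : 0 ≤ x) (hy : 0 ≤ y) (h1 : x ≤ u * T R a)
    (h2 : y ≤ v * T R b) (e : a + b = c) : x * y ≤ (u * v) * T R c := by
  rw [← T_mul hR e]
  calc x * y ≤ (u * T R a) * (v * T R b) := mul_le_mul h1 h2 hy (hx.trans h1)
    _ = _ := by ring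

lemma uniq0 {n m : ℕ} {ζ y y' : ℝ} (hy : y ∈ Y0 R n m) (hy' : y' ∈ Y0 R n m)
    (h1 : |ζ - y| ≤ 2 * T R (-(m : ℤ))) (h2 : |ζ - y'| ≤ 2 * T R (-(m : ℤ))) : y = y' := by
  obtain ⟨rfl, q1, r1, hq1, -, a1, rfl⟩ := hy
  obtain ⟨-, q2, r2, hq2, -, a2, rfl⟩ := hy'
  by_contra hne
  have hA := one_le_abs_cast (cross_ne hq1 hq2 hne)
  have hq1' : (1 : ℝ) ≤ q1 := by exact_mod_cast hq1
  have hq2' : (1 : ℝ) ≤ q2 := by exact_mod_cast hq2
  have b1 := abs_sub_center q1 r1 hq1 ζ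
  have b2 := abs_sub_center q2 r2 hq2 ζ
  have e : ((r1 * q2 - q1 * r2 : ℤ) : ℝ) = q1 * (q2 * ζ - r2) - q2 * (q1 * ζ - r1) := by
    push_cast; ring
  have h3 := abs_det_le q1 (q2 * ζ - r2) q2 (q1 * ζ - r1)
  rw [← e, b1, b2, abs_of_pos (a := (q1 : ℝ)) (by linarith),
    abs_of_pos (a := (q2 : ℝ)) (by linarith)] at h3
  have pm := T_pos hR (-(m : ℤ))
  have c1 : (q1 : ℝ) ^ 2 < T R (m - 1) := lt_T_of_mul' hR a1 (by ring)
  have c2 : (q2 : ℝ) ^ 2 < T R (m - 1) := lt_T_of_mul' hR a2 (by ring)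
  have c3 : (q1 : ℝ) * q2 ≤ 1 * T R (m - 1) := by nlinarith [sq_nonneg ((q1 : ℝ) - q2)]
  have d1 := mul_le_T hR (by positivity) (abs_nonneg _) c3 h1 (c := -1) (by ring)
  have d2 := mul_le_T hR (by positivity) (abs_nonneg _) c3 h2 (c := -1) (by ring)
  have g := T_gap hR (a := -1) (b := 0) (by norm_num)
  rw [T_zero] at g
  have := T_pos hR (-1)
  nlinarith

include hξ

omit hR in
lemma bad_sym (A C : ℤ) (hA : A ≠ 0) : T R (-1) ≤ |(A : ℝ)| * |A * ξ + C| := by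
  rcases lt_or_gt_of_ne hA with h | h
  · have := hξ (-A) C (by omega)
    have hA' : (A : ℝ) < 0 := by exact_mod_cast h
    rw [abs_of_neg hA', ← abs_neg (A * ξ + C)]
    push_cast at this
    convert this using 3
    ring
  · have := hξ A (-C) (by omega)
    have hA' : (0 : ℝ) < A := by exact_mod_cast h
    rw [abs_of_pos hA']
    push_cast at this
    convert this using 3
    ring

lemma cover1' {ζ : ℝ} {M : ℕ} (h : Avoid R (YY R ξ) M ζ) {N s : ℕ} (hN : N = 12 * 5 ^ s)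
    (p q r : ℤ) (hq : q ≠ 0) (hqN : |(q : ℝ)| ≤ T R N) (hx : |q * ξ - p| ≤ 1)
    (hM : T R (12 + N) * (|(q : ℝ)| * |q * ξ - p|) < T R (M + 1)) :
    T R (-12 - N) ≤ |q * ξ - p| * |q * ζ - r| := by
  rcases lt_or_gt_of_ne hq with h' | h'
  · have hq' : (q : ℝ) < 0 := by exact_mod_cast h'
    rw [abs_of_neg hq'] at hqN hM
    have e1 : |((-q : ℤ) : ℝ) * ξ - ((-p : ℤ) : ℝ)| = |q * ξ - p| := by
      rw [← abs_neg]; congr 1; push_cast; ring
    have e2 : |((-q : ℤ) : ℝ) * ζ - ((-r : ℤ) : ℝ)| = |q * ζ - r| := by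
      rw [← abs_neg]; congr 1; push_cast; ring
    have := cover1 hR hξ h hN (-p) (-q) (-r) (by omega) (by push_cast; exact hqN)
      (by rw [e1]; exact hx) (by rw [e1]; push_cast; exact hM)
    rwa [e1, e2] at this
  · have hq' : (0 : ℝ) < q := by exact_mod_cast h'
    rw [abs_of_pos hq'] at hqN hM
    exact cover1 hR hξ h hN p q r (by omega) hqN hx hM

lemma uniq1 {n m : ℕ} (hmn : m ≤ n) {ζ y y' : ℝ} (hav : Avoid R (YY R ξ) m ζ)
    (hy : y ∈ Y1 R ξ n m) (hy' : y' ∈ Y1 R ξ n m)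
    (h1 : |ζ - y| ≤ 2 * T R (-(m : ℤ))) (h2 : |ζ - y'| ≤ 2 * T R (-(m : ℤ))) : y = y' := by
  obtain ⟨N, hSt, p1, q1, r1, hq1, u1, l1, -, -, a1, rfl⟩ := hy
  obtain ⟨N', hSt', p2, q2, r2, hq2, u2, l2, -, -, a2, rfl⟩ := hy'
  obtain rfl := hSt.unique hSt'
  obtain ⟨⟨s, hN⟩, -, -⟩ := hSt
  by_contra hne
  have hA0 := cross_ne hq1 hq2 hne
  set k : ℤ := (n : ℤ) - m with hk
  have hk0 : 0 ≤ k := by omega
  have hq1' : (1 : ℝ) ≤ q1 := by exact_mod_cast hq1
  have hq2' : (1 : ℝ) ≤ q2 := by exact_mod_cast hq2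
  set x1 : ℝ := q1 * ξ - p1 with hx1
  set x2 : ℝ := q2 * ξ - p2 with hx2
  set z1 : ℝ := q1 * ζ - r1 with hz1
  set z2 : ℝ := q2 * ζ - r2 with hz2
  have b1 : |z1| ≤ q1 * (2 * T R (-(m : ℤ))) := by
    rw [hz1, abs_sub_center q1 r1 hq1 ζ]; gcongr
  have b2 : |z2| ≤ q2 * (2 * T R (-(m : ℤ))) := by
    rw [hz2, abs_sub_center q2 r2 hq2 ζ]; gcongr
  have u1' : (q1 : ℝ) ≤ 1 * T R (N - 2 * k) := by
    rw [one_mul]; exact le_T_of_mul hR u1 (by ring)
  have u2' : (q2 : ℝ) ≤ 1 * T R (N - 2 * k) := by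
    rw [one_mul]; exact le_T_of_mul hR u2 (by ring)
  have l1' : T R (N - 2 * k - 2) < q1 := T_lt_of_mul hR l1 (by ring)
  have l2' : T R (N - 2 * k - 2) < q2 := T_lt_of_mul hR l2 (by ring)
  have a1' : q1 * |x1| < T R (n - 10 - N) := lt_T_of_mul' hR a1 (by ring)
  have a2' : q2 * |x2| < T R (n - 10 - N) := lt_T_of_mul' hR a2 (by ring)
  have p2' := T_pos hR 2
  have e2 : T R (N - 2 * k) = T R 2 * T R (N - 2 * k - 2) := (T_mul hR (by ring)).symm
  have e3 : T R (n - 8 - N) = T R 2 * T R (n - 10 - N) := (T_mul hR (by ring)).symm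
  have r12 : (q1 : ℝ) ≤ T R 2 * q2 := by rw [e2] at u1'; nlinarith
  have r21 : (q2 : ℝ) ≤ T R 2 * q1 := by rw [e2] at u2'; nlinarith
  have c12 : q1 * |x2| ≤ 1 * T R (n - 8 - N) := by
    rw [e3]
    calc q1 * |x2| ≤ (T R 2 * q2) * |x2| := by gcongr
      _ = T R 2 * (q2 * |x2|) := by ring
      _ ≤ T R 2 * T R (n - 10 - N) := by gcongr
      _ = _ := by ring
  have c21 : q2 * |x1| ≤ 1 * T R (n - 8 - N) := by
    rw [e3]
    calc q2 * |x1| ≤ (T R 2 * q1) * |x1| := by gcongr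
      _ = T R 2 * (q1 * |x1|) := by ring
      _ ≤ T R 2 * T R (n - 10 - N) := by gcongr
      _ = _ := by ring
  set A : ℤ := r1 * q2 - q1 * r2 with hA
  set B : ℤ := q1 * p2 - p1 * q2 with hB
  set C : ℤ := p1 * r2 - r1 * p2 with hC
  have eA : (A : ℝ) = q1 * z2 - q2 * z1 := by rw [hA, hz1, hz2]; push_cast; ring
  have eB : (B : ℝ) = q2 * x1 - q1 * x2 := by rw [hB, hx1, hx2]; push_cast; ring
  have eL : A * ξ + B * ζ + C = x1 * z2 - x2 * z1 := by
    rw [hA, hB, hC, hx1, hx2, hz1, hz2]; push_cast; ring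
  have aq1 : |(q1 : ℝ)| = q1 := abs_of_pos (by linarith)
  have aq2 : |(q2 : ℝ)| = q2 := abs_of_pos (by linarith)
  have pm := T_pos hR (-(m : ℤ))
  have bA : |(A : ℝ)| ≤ 4 * T R (2 * N - 4 * k - m) := by
    have h3 := abs_det_le q1 z2 q2 z1
    rw [← eA, aq1, aq2] at h3
    have h4 := mul_le_T hR (by linarith) (by linarith) u1' u2' (c := 2 * N - 4 * k) (by ring)
    have h5 := mul_le_T hR (by positivity) (by positivity) h4
      (le_refl (2 * T R (-(m : ℤ)))) (c := 2 * N - 4 * k - m) (by ring)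
    have h6 : q1 * |z2| ≤ q1 * (q2 * (2 * T R (-(m : ℤ)))) := by gcongr
    have h7 : q2 * |z1| ≤ q2 * (q1 * (2 * T R (-(m : ℤ)))) := by gcongr
    linarith
  have bB : |(B : ℝ)| ≤ 2 * T R (n - 8 - N) := by
    have h3 := abs_det_le q2 x1 q1 x2
    rw [← eB, aq1, aq2] at h3
    linarith
  have bL : |A * ξ + B * ζ + C| ≤ 4 * T R (k - 8 - N) := by
    have h3 := abs_det_le x1 z2 x2 z1
    rw [← eL] at h3
    have h4 := mul_le_T hR (by positivity) (by positivity) c12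
      (le_refl (2 * T R (-(m : ℤ)))) (c := k - 8 - N) (by rw [hk]; ring)
    have h5 := mul_le_T hR (by positivity) (by positivity) c21
      (le_refl (2 * T R (-(m : ℤ)))) (c := k - 8 - N) (by rw [hk]; ring)
    have h6 : |x1| * |z2| ≤ |x1| * (q2 * (2 * T R (-(m : ℤ)))) := by gcongr
    have h7 : |x2| * |z1| ≤ |x2| * (q1 * (2 * T R (-(m : ℤ)))) := by gcongr
    linarith
  have hNn : -1 < (n : ℤ) - 10 - N := by
    rw [← T_lt_iff hR]; exact (hξ q1 p1 hq1).trans_lt a1'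
  by_cases hB0 : B = 0
  · have h3 := bad_sym hξ A C hA0
    rw [hB0] at bL
    simp only [Int.cast_zero, zero_mul, add_zero] at bL
    have h4 := mul_le_T hR (abs_nonneg _) (abs_nonneg _) bA bL rfl
    have h5 := T_gap hR (a := 2 * N - 4 * k - m + (k - 8 - N)) (b := -1) (by omega)
    linarith
  · have hA1 := one_le_abs_cast hA0
    have hB1 := one_le_abs_cast hB0
    have hAB := mul_le_T hR (abs_nonneg _) (abs_nonneg _) bA bB (c := N - 3 * k - 8) (by omega)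
    have hABpos : 0 < |(A : ℝ)| * |(B : ℝ)| := by positivity
    have p7 := T_pos hR (N - 7)
    obtain ⟨j, j1, j2⟩ := T_scale hR (x := T R (N - 7) / (|(A : ℝ)| * |(B : ℝ)|)) (by positivity)
    rw [le_div_iff₀ hABpos] at j1
    rw [div_lt_iff₀ hABpos] at j2
    have hj : 3 * k < j + 1 := by
      have g := T_gap hR (a := N - 3 * k - 8) (b := N - 3 * k - 7) (by omega)
      have pj := T_pos hR (j + 1)
      have p8 := T_pos hR (N - 3 * k - 8)
      have h3 : T R (N - 7) < T R (j + 1) * T R (N - 3 * k - 7) := by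
        refine j2.trans_le ?_
        gcongr
        linarith
      rw [T_mul hR rfl, T_lt_iff hR] at h3
      omega
    have key := cover2 hR hav hN A B C hA0 hB0 (j / 6) (by omega) (by
        have h3 := T_le hR (a := 6 * (j / 6) + 7) (b := j + 7) (by omega)
        have e4 : T R N = T R (N - 7) * T R 7 := (T_mul hR (by ring)).symm
        rw [T_add hR j 7] at h3
        have p77 := T_pos hR 7
        calc _ ≤ |(A : ℝ)| * |(B : ℝ)| * (T R j * T R 7) := by gcongr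
          _ = (T R j * (|(A : ℝ)| * |(B : ℝ)|)) * T R 7 := by ring
          _ ≤ T R (N - 7) * T R 7 := by gcongr
          _ = _ := e4.symm) (by
        have h3 := T_le hR (a := (j + 1) + 7) (b := 6 * (j / 6) + 13) (by omega)
        have e4 : T R N = T R (N - 7) * T R 7 := (T_mul hR (by ring)).symm
        rw [T_add hR (j + 1) 7] at h3
        have p77 := T_pos hR 7
        calc T R N = T R (N - 7) * T R 7 := e4
          _ < (T R (j + 1) * (|(A : ℝ)| * |(B : ℝ)|)) * T R 7 := by gcongr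
          _ = |(A : ℝ)| * |(B : ℝ)| * (T R (j + 1) * T R 7) := by ring
          _ ≤ _ := by gcongr) (by
        have h3 := mul_le_T hR (T_pos hR N).le (abs_nonneg _) (by rw [one_mul]) bB
          (u := 1) (a := N) (c := n - 8) (by ring)
        have g := T_gap hR (a := n - 8) (b := m + 2 * (j / 6) - 5) (by omega)
        have := T_pos hR (n - 8)
        linarith)
    have g := T_gap hR (a := k - 8 - N) (b := 2 * (j / 6) - 6 - N) (by omega)
    have := T_pos hR (k - 8 - N)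
    linarith

lemma uniq2 {n m : ℕ} (hmn : m ≤ n) {ζ y y' : ℝ} (hav : Avoid R (YY R ξ) m ζ)
    (hy : y ∈ Y2 R ξ n m) (hy' : y' ∈ Y2 R ξ n m)
    (h1 : |ζ - y| ≤ 2 * T R (-(m : ℤ))) (h2 : |ζ - y'| ≤ 2 * T R (-(m : ℤ))) : y = y' := by
  obtain ⟨N, hSt, A1, B1, C1, hA1, hB1, u1, -, l1, a1, rfl⟩ := hy
  obtain ⟨N', hSt', A2, B2, C2, hA2, hB2, u2, -, l2, a2, rfl⟩ := hy'
  obtain rfl := hSt.unique hSt'
  obtain ⟨⟨s, hN⟩, -, -⟩ := hSt
  set k : ℤ := (n : ℤ) - m with hk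
  have hk0 : 0 ≤ k := by omega
  have hA1' := one_le_abs_cast hA1
  have hA2' := one_le_abs_cast hA2
  have hB1' := one_le_abs_cast hB1
  have hB2' := one_le_abs_cast hB2
  have u1' : |(A1 : ℝ)| * |(B1 : ℝ)| ≤ T R (N - 6 * k - 7) := le_T_of_mul hR u1 (by ring)
  have u2' : |(A2 : ℝ)| * |(B2 : ℝ)| ≤ T R (N - 6 * k - 7) := le_T_of_mul hR u2 (by ring)
  have l1' : T R (n + 2 * k - 5 - N) ≤ |(B1 : ℝ)| :=
    T_le_of_mul' hR l1 (by ring)
  have l2' : T R (n + 2 * k - 5 - N) ≤ |(B2 : ℝ)| :=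
    T_le_of_mul' hR l2 (by ring)
  have bB1 : |(B1 : ℝ)| ≤ 1 * T R (n + 2 * k - 4 - N) := by
    rw [one_mul]; exact (lt_T_of_mul' hR a1 (by ring)).le
  have bB2 : |(B2 : ℝ)| ≤ 1 * T R (n + 2 * k - 4 - N) := by
    rw [one_mul]; exact (lt_T_of_mul' hR a2 (by ring)).le
  have bB1' : |(B1 : ℝ)| ≤ 1 * T R (N - 6 * k - 7) := by nlinarith
  have bB2' : |(B2 : ℝ)| ≤ 1 * T R (N - 6 * k - 7) := by nlinarith
  have bA1 : |(A1 : ℝ)| ≤ 1 * T R (2 * N - 8 * k - n - 2) := by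
    rw [one_mul]
    refine le_T_of_mul hR (a := n + 2 * k - 5 - N) (le_trans ?_ u1') (by ring)
    gcongr
  have bA2 : |(A2 : ℝ)| ≤ 1 * T R (2 * N - 8 * k - n - 2) := by
    rw [one_mul]
    refine le_T_of_mul hR (a := n + 2 * k - 5 - N) (le_trans ?_ u2') (by ring)
    gcongr
  set L1 : ℝ := A1 * ξ + B1 * ζ + C1 with hL1
  set L2 : ℝ := A2 * ξ + B2 * ζ + C2 with hL2
  have bL1 : |L1| ≤ 2 * T R (3 * k - 4 - N) := by
    rw [hL1, abs_line A1 B1 C1 hB1]
    have := mul_le_T hR (abs_nonneg _) (abs_nonneg _) bB1 h1 (c := 3 * k - 4 - N) (by omega)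
    linarith
  have bL2 : |L2| ≤ 2 * T R (3 * k - 4 - N) := by
    rw [hL2, abs_line A2 B2 C2 hB2]
    have := mul_le_T hR (abs_nonneg _) (abs_nonneg _) bB2 h2 (c := 3 * k - 4 - N) (by omega)
    linarith
  set p : ℤ := B1 * C2 - C1 * B2 with hp
  set r : ℤ := C1 * A2 - A1 * C2 with hr
  set q : ℤ := A1 * B2 - A2 * B1 with hq
  have eq' : (q : ℝ) = A1 * B2 - A2 * B1 := by rw [hq]; push_cast; ring
  have ex : q * ξ - p = B2 * L1 - B1 * L2 := by rw [hq, hp, hL1, hL2]; push_cast; ring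
  have ez : q * ζ - r = A1 * L2 - A2 * L1 := by rw [hq, hr, hL1, hL2]; push_cast; ring
  have bq : |(q : ℝ)| ≤ 2 * T R (N - 6 * k - 6) := by
    have h3 := abs_det_le (A1 : ℝ) B2 A2 B1
    rw [← eq'] at h3
    have h4 := mul_le_T hR (abs_nonneg _) (abs_nonneg _) bA1 bB2 (c := N - 6 * k - 6) (by ring)
    have h5 := mul_le_T hR (abs_nonneg _) (abs_nonneg _) bA2 bB1 (c := N - 6 * k - 6) (by ring)
    linarith
  have bx : |q * ξ - p| ≤ 4 * T R (n + 5 * k - 8 - 2 * N) := by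
    have h3 := abs_det_le (B2 : ℝ) L1 B1 L2
    rw [← ex] at h3
    have h4 := mul_le_T hR (abs_nonneg _) (abs_nonneg _) bB2 bL1
      (c := n + 5 * k - 8 - 2 * N) (by ring)
    have h5 := mul_le_T hR (abs_nonneg _) (abs_nonneg _) bB1 bL2
      (c := n + 5 * k - 8 - 2 * N) (by ring)
    linarith
  have bx' : |q * ξ - p| < 1 := by
    have h3 := abs_det_le (B2 : ℝ) L1 B1 L2
    rw [← ex] at h3
    have h4 := mul_le_T hR (abs_nonneg _) (abs_nonneg _) bB2' bL1 (c := -3 * k - 11) (by ring)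
    have h5 := mul_le_T hR (abs_nonneg _) (abs_nonneg _) bB1' bL2 (c := -3 * k - 11) (by ring)
    have g := T_gap hR (a := -3 * k - 11) (b := 0) (by omega)
    rw [T_zero] at g
    have := T_pos hR (-3 * k - 11)
    linarith
  have bz : |q * ζ - r| ≤ 4 * T R (N - 5 * k - n - 6) := by
    have h3 := abs_det_le (A1 : ℝ) L2 A2 L1
    rw [← ez] at h3
    have h4 := mul_le_T hR (abs_nonneg _) (abs_nonneg _) bA1 bL2 (c := N - 5 * k - n - 6) (by ring)
    have h5 := mul_le_T hR (abs_nonneg _) (abs_nonneg _) bA2 bL1 (c := N - 5 * k - n - 6) (by ring)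
    linarith
  by_cases hq0 : q = 0
  · rw [hq0] at bx' ex
    simp only [Int.cast_zero, zero_mul, zero_sub, abs_neg] at bx' ex
    have hp0 : p = 0 := by
      have : |p| < 1 := by exact_mod_cast bx'
      exact Int.abs_lt_one_iff.1 this
    rw [hp0] at ex
    have hB10 : (B1 : ℝ) ≠ 0 := by exact_mod_cast hB1
    have hB20 : (B2 : ℝ) ≠ 0 := by exact_mod_cast hB2
    rw [div_eq_div_iff hB10 hB20]
    rw [hL1, hL2] at ex
    simp only [Int.cast_zero, neg_zero] at ex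
    linear_combination ex
  · exfalso
    have key := cover1' hR hξ hav hN p q r hq0 (by
        have g := T_gap hR (a := N - 6 * k - 6) (b := N) (by omega)
        have := T_pos hR (N - 6 * k - 6)
        linarith) bx'.le (by
        have h3 := mul_le_T hR (abs_nonneg _) (abs_nonneg _) bq bx rfl
        have h4 := mul_le_T hR (T_pos hR (12 + N)).le (by positivity) (by rw [one_mul]) h3
          (u := 1) (a := 12 + N) (c := m - 2) (by omega)
        have g := T_gap hR (a := m - 2) (b := m + 1) (by omega)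
        have := T_pos hR (m - 2)
        linarith)
    have h3 := mul_le_T hR (abs_nonneg _) (abs_nonneg _) bx bz (c := -14 - N) (by ring)
    have g := T_gap hR (a := -14 - N) (b := -12 - N) (by omega)
    linarith

theorem exists_avoid : ∃ ζ : ℝ, ∀ M, Avoid R (YY R ξ) M ζ := by
  refine cantor (by simpa using hR) _ fun i n m ζ hmn hav y hy y' hy' h1 h2 => ?_
  rw [T_two] at h1 h2
  fin_cases i
  · exact uniq0 hR hy hy' h1 h2
  · exact uniq1 hR hξ hmn hav hy hy' h1 h2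
  · exact uniq2 hR hξ hmn hav hy hy' h1 h2

theorem exists_partner : ∃ ζ : ℝ, (∀ q r : ℤ, 1 ≤ q → T R (-3) ≤ q * |q * ζ - r|) ∧
    ∀ s : ℕ, ∀ p q r : ℤ, 1 ≤ q → (q : ℝ) ≤ T R (12 * 5 ^ s : ℕ) → |q * ξ - p| ≤ 1 →
      T R (-12) ≤ T R (12 * 5 ^ s : ℕ) * (|q * ξ - p| * |q * ζ - r|) := by
  obtain ⟨ζ, h⟩ := exists_avoid hR hξ
  refine ⟨ζ, cover0 hR h, fun s p q r hq hqN hx => ?_⟩
  set N : ℕ := 12 * 5 ^ s with hN
  have pN := T_pos hR N
  have key := cover1 hR hξ (h (12 + N + N)) hN p q r hq hqN hx (by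
    have h1 : q * |q * ξ - p| ≤ T R N := by
      have hq' : (1 : ℝ) ≤ q := by exact_mod_cast hq
      calc q * |q * ξ - p| ≤ q * 1 := by gcongr
        _ ≤ _ := by linarith
    have p12 := T_pos hR (12 + N)
    calc T R (12 + N) * (q * |q * ξ - p|) ≤ T R (12 + N) * T R N := by gcongr
      _ = T R (12 + N + N) := T_mul hR rfl
      _ < _ := by rw [T_lt_iff hR]; push_cast; omega)
  rw [← T_mul hR (a := N) (b := -12 - N) (by ring)]
  gcongr

end Pool.Agent.H404Z.ULC
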