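import Pool.Agent.H404Z.ULC.Defs
import Pool.Agent.H404Z.ULC.Uniq

open Filter

namespace Pool.Agent.H404Z.ULC

theorem main (ξ : ℝ) (hξ : Bad ξ) : ∃ ζ : ℝ, Bad ζ ∧ 0 < D ξ ζ := by
  obtain ⟨c, hc, hb⟩ := hξ
  obtain ⟨R0, hR0⟩ := exists_nat_one_div_lt hc
  set R : ℕ := R0 + 20 with hRdef
  have hR : 20 ≤ R := by omega
  have hTc : T R (-1) ≤ c := by
    unfold T
    rw [zpow_neg_one, ← one_div]
    refine le_trans ?_ hR0.le
    apply one_div_le_one_div_of_le (by positivity)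
    rw [hRdef]; push_cast; linarith
  have hξ' : ∀ q p : ℤ, 1 ≤ q → T R (-1) ≤ q * |q * ξ - p| := by
    intro q p hq
    obtain ⟨q, rfl⟩ : ∃ n : ℕ, q = n := ⟨q.toNat, by omega⟩
    have h1 := hb q (by omega)
    have h2 : nrm (q * ξ) ≤ |q * ξ - p| := round_le _ p
    push_cast
    calc T R (-1) ≤ q * nrm (q * ξ) := hTc.trans h1
      _ ≤ _ := by gcongr
  obtain ⟨ζ, h1, h2⟩ := exists_partner hR hξ'
  refine ⟨ζ, ⟨T R (-3), T_pos hR _, fun q hq => ?_⟩, ?_⟩
  · have := h1 q (round (q * ζ)) (by omega)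
    simpa [nrm] using this
  · have hpos : (0 : EReal) < ((T R (-12) : ℝ) : EReal) := by exact_mod_cast T_pos hR _
    refine hpos.trans_le (le_limsup_of_frequently_le' ?_)
    rw [frequently_atTop]
    intro a
    refine ⟨R ^ (12 * 5 ^ a), ?_, ?_⟩
    · have e1 : a < 5 ^ a := Nat.lt_pow_self (by norm_num)
      have e2 : 12 * 5 ^ a < R ^ (12 * 5 ^ a) := Nat.lt_pow_self (by omega)
      omega
    · have eT : T R (12 * 5 ^ a : ℕ) = ((R ^ (12 * 5 ^ a) : ℕ) : ℝ) := by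
        unfold T; rw [zpow_natCast]; push_cast; rfl
      have hQ : 1 ≤ R ^ (12 * 5 ^ a) := Nat.one_le_pow _ _ (by omega)
      have hQ' : (0 : ℝ) < ((R ^ (12 * 5 ^ a) : ℕ) : ℝ) := by exact_mod_cast hQ
      rw [EReal.coe_le_coe_iff, mul_comm, ← div_le_iff₀ hQ']
      refine le_csInf ⟨_, 1, ⟨le_rfl, hQ⟩, rfl⟩ ?_
      rintro _ ⟨q, ⟨hq1, hq2⟩, rfl⟩
      have := h2 a (round (q * ξ)) q (round (q * ζ)) (by omega)
        (by rw [eT]; exact_mod_cast hq2)
        (by have := abs_sub_round ((q : ℝ) * ξ); push_cast; linarith)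
      rw [eT] at this
      rw [div_le_iff₀ hQ', mul_comm]
      simpa [nrm] using this

/-- sanity check: badly approximable numbers exist -/
theorem bad_sqrt_two : Bad (Real.sqrt 2) := by
  refine ⟨1 / 4, by norm_num, fun q hq => ?_⟩
  set s := Real.sqrt 2 with hs
  have s2 : s * s = 2 := Real.mul_self_sqrt (by norm_num)
  have s0 : 0 < s := Real.sqrt_pos.2 (by norm_num)
  have s1 : s < 3 / 2 := by nlinarith
  set p : ℤ := round ((q : ℝ) * s) with hp
  have hq' : (1 : ℝ) ≤ q := by exact_mod_cast hq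
  have h1 : |q * s - p| ≤ 1 / 2 := abs_sub_round _
  have hne : (2 * (q : ℤ) ^ 2 - p ^ 2) ≠ 0 := by
    intro h
    have h' : (2 * (q : ℝ) ^ 2 - (p : ℝ) ^ 2) = 0 := by exact_mod_cast h
    have h3 : (q * s - p) * (q * s + p) = 0 := by nlinarith
    have hirr : Irrational (q * s) := irrational_sqrt_two.natCast_mul (by omega)
    rcases mul_eq_zero.1 h3 with h4 | h4
    · exact hirr.ne_int p (by linarith)
    · exact hirr.ne_int (-p) (by push_cast; linarith)
  have h2 := one_le_abs_cast hne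
  have e : ((2 * (q : ℤ) ^ 2 - p ^ 2 : ℤ) : ℝ) = (q * s - p) * (q * s + p) := by
    push_cast; nlinarith
  rw [e, abs_mul] at h2
  have h3 : |q * s + p| ≤ 4 * q := by
    rw [abs_le] at h1 ⊢
    constructor <;> nlinarith [h1.1, h1.2]
  have h4 := abs_nonneg (q * s - p)
  unfold nrm
  rw [← hp]
  nlinarith

end Pool.Agent.H404Z.ULC
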